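import Mathlib

set_option autoImplicit false

namespace Pool.Agent.Results.MP_7bd500_al.No

open Filter Topology

/-- normalised Hamming distance of two permutations of a finite set -/
noncomputable def dH {X : Type} [Fintype X] [DecidableEq X] (σ τ : Equiv.Perm X) : ℝ :=
  ((Finset.univ.filter fun x => σ x ≠ τ x).card : ℝ) / (Fintype.card X : ℝ)

/-- permutation stability of `G = F_S / ker π`, for the presentation `π : F_S → G` -/
def PStable {S G : Type} [Group G] (π : FreeGroup S →* G) : Prop :=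
  ∀ (X : ℕ → Type) [∀ n, Fintype (X n)] [∀ n, DecidableEq (X n)]
    (φ : ∀ n, FreeGroup S →* Equiv.Perm (X n)),
    (∀ w ∈ π.ker, Tendsto (fun n => dH (φ n w) 1) atTop (𝓝 0)) →
    ∃ ψ : ∀ n, FreeGroup S →* Equiv.Perm (X n), (∀ n, π.ker ≤ (ψ n).ker) ∧
      ∀ s : S, Tendsto (fun n => dH (φ n (FreeGroup.of s)) (ψ n (FreeGroup.of s))) atTop (𝓝 0)

/-- every finitely generated subgroup is an intersection of finite-index subgroups -/
def LERF (G : Type) [Group G] : Prop :=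
  ∀ H : Subgroup G, H.FG → ∃ 𝒦 : Set (Subgroup G), (∀ K ∈ 𝒦, K.FiniteIndex) ∧ H = sInf 𝒦

/-- amenability: a finitely additive left-invariant probability on all subsets -/
def Amenable (G : Type) [Group G] : Prop :=
  ∃ m : Set G → ℝ, (∀ A, 0 ≤ m A) ∧ m Set.univ = 1 ∧
    (∀ A B, Disjoint A B → m (A ∪ B) = m A + m B) ∧
    ∀ (g : G) (A : Set G), m ((fun x => g * x) '' A) = m A

section Ham
variable {X : Type} [Fintype X] [DecidableEq X]

lemma dH_eq (σ τ : Equiv.Perm X) :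
    dH σ τ = (hammingDist (σ : X → X) (τ : X → X) : ℝ) / (Fintype.card X : ℝ) := rfl

lemma dH_nonneg (σ τ : Equiv.Perm X) : 0 ≤ dH σ τ := by unfold dH; positivity

lemma dH_self (σ : Equiv.Perm X) : dH σ σ = 0 := by simp [dH]

lemma dH_comm (σ τ : Equiv.Perm X) : dH σ τ = dH τ σ := by
  rw [dH_eq, dH_eq, hammingDist_comm]

lemma dH_tri (σ τ ρ : Equiv.Perm X) : dH σ ρ ≤ dH σ τ + dH τ ρ := by
  rw [dH_eq, dH_eq, dH_eq, ← add_div]
  gcongr
  exact_mod_cast hammingDist_triangle _ _ _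

lemma dH_left (ρ σ τ : Equiv.Perm X) : dH (ρ * σ) (ρ * τ) = dH σ τ := by
  simp [dH]

lemma dH_right (ρ σ τ : Equiv.Perm X) : dH (σ * ρ) (τ * ρ) = dH σ τ := by
  unfold dH
  congr 2
  exact Finset.card_equiv ρ (fun i => by
    rw [Finset.mem_filter, Finset.mem_filter]; simp)

lemma dH_mul (a b c d : Equiv.Perm X) : dH (a * b) (c * d) ≤ dH a c + dH b d := by
  have := dH_tri (a * b) (c * b) (c * d)
  rwa [dH_left, dH_right] at this

lemma dH_inv (a b : Equiv.Perm X) : dH a⁻¹ b⁻¹ = dH a b := by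
  rw [← dH_left a, ← dH_right b, dH_comm]; simp

lemma dH_comm_le (a b : Equiv.Perm X) : dH (a * b * a⁻¹ * b⁻¹) 1 ≤ 2 * dH a 1 := by
  have h1 := dH_mul a (b * a⁻¹ * b⁻¹) 1 (b * 1 * b⁻¹)
  have h2 := dH_inv a 1
  rw [dH_right, dH_left] at h1
  simp only [inv_one, mul_one, mul_inv_cancel, ← mul_assoc] at h1 h2
  linarith

end Ham

/-- biadditive maps -/
structure Bi (V Z : Type) [AddCommGroup V] [AddCommGroup Z] where
  B : V → V → Z
  l : ∀ a b c, B (a + b) c = B a c + B b c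
  r : ∀ a b c, B a (b + c) = B a b + B a c

section Hs
variable {V Z : Type} [AddCommGroup V] [AddCommGroup Z]

lemma Bi.zl (β : Bi V Z) (a : V) : β.B 0 a = 0 := by simpa using β.l 0 0 a
lemma Bi.zr (β : Bi V Z) (a : V) : β.B a 0 = 0 := by simpa using β.r a 0 0
lemma Bi.nl (β : Bi V Z) (a b : V) : β.B (-a) b = -β.B a b := by
  have := β.l (-a) a b
  rw [neg_add_cancel, β.zl] at this
  exact eq_neg_of_add_eq_zero_left this.symm

/-- central extension given by a biadditive cocycle -/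
@[ext] structure Hs (β : Bi V Z) where
  v : V
  z : Z

variable {β : Bi V Z}

instance : Mul (Hs β) := ⟨fun a b => ⟨a.v + b.v, a.z + b.z + β.B a.v b.v⟩⟩
instance : One (Hs β) := ⟨⟨0, 0⟩⟩
instance : Inv (Hs β) := ⟨fun a => ⟨-a.v, -a.z + β.B a.v a.v⟩⟩
@[simp] lemma mul_v (a b : Hs β) : (a * b).v = a.v + b.v := rfl
@[simp] lemma mul_z (a b : Hs β) : (a * b).z = a.z + b.z + β.B a.v b.v := rfl
@[simp] lemma one_v : (1 : Hs β).v = 0 := rfl
@[simp] lemma one_z : (1 : Hs β).z = 0 := rfl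
@[simp] lemma inv_v (a : Hs β) : a⁻¹.v = -a.v := rfl
@[simp] lemma inv_z (a : Hs β) : a⁻¹.z = -a.z + β.B a.v a.v := rfl

instance : Group (Hs β) where
  mul_assoc a b c := by
    ext
    · simp [add_assoc]
    · simp only [mul_z, mul_v, β.l, β.r]; abel
  one_mul a := by ext <;> simp [β.zl]
  mul_one a := by ext <;> simp [β.zr]
  inv_mul_cancel a := by ext <;> simp [β.nl]

lemma toProd_inj : Function.Injective (fun a : Hs β => (a.v, a.z)) := fun a b h => by
  simp only [Prod.mk.injEq] at h; exact Hs.ext h.1 h.2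

instance [Finite V] [Finite Z] : Finite (Hs β) := Finite.of_injective _ toProd_inj
instance [Countable V] [Countable Z] : Countable (Hs β) := toProd_inj.countable

end Hs

abbrev k := ZMod 2
abbrev W := ℕ →₀ k

noncomputable def Sm : W →ₗ[k] k := Finsupp.linearCombination k (fun _ => 1)

noncomputable def βP : Bi (k × W × W) (k × W) where
  B a b := (a.1 * Sm b.2.1, a.2.1 * b.2.2 - a.1 • b.2.1)
  l a b c := by
    ext <;> simp <;> ring
  r a b c := by
    ext <;> simp <;> ring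

abbrev P := Hs βP

def βT (n : ℕ) : Bi (k × k × (Fin n → k) × (Fin n → k)) (k × (Fin n → k)) where
  B a b := (a.1 * b.2.1, a.2.2.1 * b.2.2.2 - a.1 • b.2.2.1)
  l a b c := by
    ext <;> simp <;> ring
  r a b c := by
    ext <;> simp <;> ring

def βE (n : ℕ) : Bi ((Fin n → k) × (Fin n → k)) k where
  B a b := ∑ i, a.1 i * b.2 i
  l a b c := by simp [add_mul, Finset.sum_add_distrib]
  r a b c := by simp [mul_add, Finset.sum_add_distrib]

lemma PB (a b : k × W × W) : βP.B a b = (a.1 * Sm b.2.1, a.2.1 * b.2.2 - a.1 • b.2.1) := rfl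
lemma TB (n : ℕ) (a b : k × k × (Fin n → k) × (Fin n → k)) :
    (βT n).B a b = (a.1 * b.2.1, a.2.2.1 * b.2.2.2 - a.1 • b.2.2.1) := rfl
lemma EB (n : ℕ) (a b : (Fin n → k) × (Fin n → k)) : (βE n).B a b = ∑ i, a.1 i * b.2 i := rfl

noncomputable def τ (n : ℕ) : P →* Hs (βT n) := MonoidHom.mk'
  (fun x => ⟨(x.v.1, Sm x.v.2.1, fun i => x.v.2.1 i, fun i => x.v.2.2 i), (x.z.1, fun i => x.z.2 i)⟩)
  (fun x y => by ext <;> simp [PB, TB])

noncomputable def θ (n : ℕ) (x : P) : Hs (βE n) :=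
  ⟨(fun i => x.v.2.1 i, fun i => x.v.2.2 i), x.z.1 + ∑ i : Fin n, x.z.2 i⟩

/-- elements supported below `n` -/
def Pn (n : ℕ) : Subgroup P where
  carrier := {x | ∀ i, n ≤ i → x.v.2.1 i = 0 ∧ x.v.2.2 i = 0 ∧ x.z.2 i = 0}
  one_mem' := by simp
  mul_mem' := by
    intro a b ha hb i hi
    obtain ⟨h1, h2, h3⟩ := ha i hi
    obtain ⟨h4, h5, h6⟩ := hb i hi
    simp [PB, h1, h2, h3, h4, h5, h6]
  inv_mem' := by
    intro a ha i hi
    obtain ⟨h1, h2, h3⟩ := ha i hi
    simp [PB, h1, h2, h3]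

lemma Pn_mono {m n : ℕ} (h : m ≤ n) : Pn m ≤ Pn n := fun _ hx i hi => hx i (h.trans hi)

lemma W_ev (u : W) : ∀ᶠ n in atTop, ∀ i, n ≤ i → u i = 0 := by
  refine eventually_atTop.2 ⟨u.support.sup id + 1, fun n hn i hi => ?_⟩
  by_contra h
  have := Finset.le_sup (f := id) (Finsupp.mem_support_iff.2 h)
  simp only [id] at this
  omega

lemma Pn_ev (x : P) : ∀ᶠ n in atTop, x ∈ Pn n := by
  filter_upwards [W_ev x.v.2.1, W_ev x.v.2.2, W_ev x.z.2] with n h1 h2 h3 i hi
  exact ⟨h1 i hi, h2 i hi, h3 i hi⟩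

lemma τ_inj (n : ℕ) (x y : P) (hx : x ∈ Pn n) (hy : y ∈ Pn n) (h : τ n x = τ n y) : x = y := by
  have h1 := congrArg Hs.v h
  have h2 := congrArg Hs.z h
  simp only [τ, MonoidHom.mk'_apply, Prod.mk.injEq] at h1 h2
  have key : ∀ u w : W, (∀ i, n ≤ i → u i = 0) → (∀ i, n ≤ i → w i = 0) →
      ((fun i : Fin n => u i) = fun i : Fin n => w i) → u = w := by
    intro u w hu hw e
    ext i
    by_cases hi : i < n
    · exact congrFun e ⟨i, hi⟩
    · rw [hu i (by omega), hw i (by omega)]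
  refine Hs.ext (Prod.ext h1.1 (Prod.ext ?_ ?_)) (Prod.ext h2.1 ?_)
  · exact key _ _ (fun i hi => (hx i hi).1) (fun i hi => (hy i hi).1) h1.2.2.1
  · exact key _ _ (fun i hi => (hx i hi).2.1) (fun i hi => (hy i hi).2.1) h1.2.2.2
  · exact key _ _ (fun i hi => (hx i hi).2.2) (fun i hi => (hy i hi).2.2) h2.2

instance (n : ℕ) : Finite (Pn n) :=
  Finite.of_injective (fun x => τ n x) fun x y h => Subtype.ext (τ_inj n _ _ x.2 y.2 h)

lemma θ_mul (n : ℕ) (x y : P) (hy : y ∈ Pn n) : θ n (x * y) = θ n x * θ n y := by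
  have : Sm y.v.2.1 = ∑ i : Fin n, y.v.2.1 i := by
    rw [Sm, Finsupp.linearCombination_apply, Finsupp.sum_of_support_subset (s := Finset.range n),
      Finset.sum_range]
    · simp
    · intro i hi
      by_contra h
      exact Finsupp.mem_support_iff.1 hi (hy i (by simpa using h)).1
    · simp
  ext
  · simp [θ]
  · simp [θ]
  · simp [θ, PB, EB, this, Finset.sum_add_distrib, Finset.mul_sum]; ring

lemma θ_one (n : ℕ) : θ n 1 = 1 := by ext <;> simp [θ]

lemma lerf : LERF P := by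
  intro H hH
  refine ⟨{K | K.FiniteIndex ∧ H ≤ K}, fun K hK => hK.1, le_antisymm (le_sInf fun K hK => hK.2) ?_⟩
  intro x hx
  obtain ⟨S, rfl⟩ := hH
  have h1 : ∀ᶠ n in atTop, ∀ s ∈ S, s ∈ Pn n := (eventually_all_finset S).2 fun s _ => Pn_ev s
  obtain ⟨n, h2, h3⟩ := (h1.and (Pn_ev x)).exists
  have h4 : Subgroup.closure (S : Set P) ≤ Pn n := (Subgroup.closure_le _).2 h2
  have h5 : (((Subgroup.closure (S : Set P)).map (τ n)).comap (τ n)).FiniteIndex :=
    have := Subgroup.finiteIndex_ker (τ n)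
    Subgroup.finiteIndex_of_le (Subgroup.ker_le_comap _ _)
  obtain ⟨y, hy, e⟩ := Subgroup.mem_sInf.1 hx _ ⟨h5, Subgroup.le_comap_map _ _⟩
  rwa [← τ_inj n _ _ (h4 hy) h3 e]

lemma amen : Amenable P := by
  classical
  let μ : ℕ → Set P → ℝ := fun n A => ((A ∩ Pn n).ncard : ℝ) / ((Pn n : Set P).ncard : ℝ)
  have fin : ∀ n, (Pn n : Set P).Finite := fun n => Set.finite_coe_iff.1 (inferInstanceAs (Finite (Pn n)))
  have pos : ∀ n, (0 : ℝ) < (Pn n : Set P).ncard := fun n => by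
    exact_mod_cast (Set.ncard_pos (fin n)).2 ⟨1, (Pn n).one_mem⟩
  have bd : ∀ n A, μ n A ∈ Set.Icc (0 : ℝ) 1 := fun n A =>
    ⟨by positivity, (div_le_one (pos n)).2 (by
      exact_mod_cast Set.ncard_le_ncard Set.inter_subset_right (fin n))⟩
  let U : Ultrafilter ℕ := Filter.hyperfilter ℕ
  have hU : (U : Filter ℕ) ≤ atTop := by
    rw [← Nat.cofinite_eq_atTop]; exact Filter.hyperfilter_le_cofinite
  have ex : ∀ A, ∃ r, Tendsto (fun n => μ n A) U (𝓝 r) := fun A => by
    obtain ⟨r, -, hr⟩ := isCompact_Icc.ultrafilter_le_nhds (U.map fun n => μ n A)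
      (by simp only [Ultrafilter.coe_map, le_principal_iff, mem_map]
          exact Eventually.of_forall fun n => bd n A)
    exact ⟨r, hr⟩
  choose m hm using ex
  refine ⟨m, fun A => ge_of_tendsto' (hm A) fun n => (bd n A).1, ?_, fun A B hAB => ?_,
    fun g A => ?_⟩
  · refine tendsto_nhds_unique (hm _) (tendsto_const_nhds.congr fun n => ?_)
    simp only [μ, Set.univ_inter]
    exact (div_self (pos n).ne').symm
  · refine tendsto_nhds_unique (hm _) (((hm A).add (hm B)).congr fun n => ?_)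
    simp only [μ]
    rw [Set.union_inter_distrib_right, Set.ncard_union_eq
      (hAB.mono Set.inter_subset_left Set.inter_subset_left)
      ((fin n).subset Set.inter_subset_right) ((fin n).subset Set.inter_subset_right)]
    push_cast; ring
  · refine tendsto_nhds_unique (hm _) ((hm A).congr' ?_)
    filter_upwards [hU (Pn_ev g)] with n hn
    simp only [μ]
    congr 2
    rw [← Set.ncard_image_of_injective (A ∩ Pn n) (mul_right_injective g)]
    congr 1
    ext x
    constructor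
    · rintro ⟨y, ⟨h1, h2⟩, rfl⟩
      exact ⟨⟨y, h1, rfl⟩, (Pn n).mul_mem hn h2⟩
    · rintro ⟨⟨y, h1, rfl⟩, h2⟩
      exact ⟨y, ⟨h1, ((Pn n).mul_mem_cancel_left hn).1 h2⟩, rfl⟩

noncomputable def hh : P := ⟨(1, 0, 0), 0⟩
noncomputable def gg : P := ⟨0, (1, 0)⟩
noncomputable def ee (i : ℕ) : P := ⟨(0, Finsupp.single i 1, 0), 0⟩
noncomputable def ff (i : ℕ) : P := ⟨(0, 0, Finsupp.single i 1), 0⟩

lemma rel1 (i : ℕ) : hh * ee i * hh⁻¹ * (ee i)⁻¹ * (ee i * ff i * (ee i)⁻¹ * (ff i)⁻¹) = gg := by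
  ext j <;> simp [hh, gg, ee, ff, PB, Sm, Finsupp.single_apply]
  · rfl
  · rfl
  · split_ifs <;> rfl

lemma rel2 (i j : ℕ) (h : i ≠ j) : ee j * ff i = ff i * ee j := by
  ext l <;> simp [ee, ff, PB, Finsupp.single_apply]
  omega

lemma fin_rel {Q : Type} [Group Q] [Finite Q] (ρ : P →* Q) :
    ∃ u, ρ gg = ρ hh * u * (ρ hh)⁻¹ * u⁻¹ := by
  obtain ⟨i, j, hij, e⟩ := Finite.exists_ne_map_eq_of_infinite (fun i => ρ (ee i))
  refine ⟨ρ (ee i), ?_⟩
  have h1 := congrArg ρ (rel2 i j hij)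
  rw [map_mul, map_mul, ← e] at h1
  rw [← rel1 i]
  simp only [map_mul, map_inv, h1]
  group

theorem result : ∃ (G : Type) (_ : Group G), Countable G ∧ Amenable G ∧ LERF G ∧
    ∀ (S : Type) (π : FreeGroup S →* G), Function.Surjective π → ¬ PStable π := by
  classical
  refine ⟨P, inferInstance, inferInstance, amen, lerf, fun S π hπ hs => ?_⟩
  let _ : ∀ n, Fintype (Hs (βE n)) := fun n => Fintype.ofFinite _
  let L : ∀ n, Hs (βE n) →* Equiv.Perm (Hs (βE n)) := fun n => MulAction.toPermHom _ _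
  let Φ : ∀ n, FreeGroup S →* Hs (βE n) := fun n =>
    FreeGroup.lift fun s => θ n (π (FreeGroup.of s))
  have hΦ : ∀ w, ∀ᶠ n in atTop, Φ n w = θ n (π w) := by
    intro w
    induction w using FreeGroup.induction_on with
    | C1 => exact Eventually.of_forall fun n => by simp [θ_one]
    | of s => exact Eventually.of_forall fun n => by simp [Φ]
    | inv_of s ih =>
      filter_upwards [ih, Pn_ev (π (FreeGroup.of s))] with n h1 h2
      rw [map_inv, h1, map_inv, inv_eq_iff_mul_eq_one, ← θ_mul n _ _ ((Pn n).inv_mem h2),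
        mul_inv_cancel, θ_one]
    | mul x y hx hy =>
      filter_upwards [hx, hy, Pn_ev (π y)] with n h1 h2 h3
      rw [map_mul, map_mul, h1, h2, θ_mul n _ _ h3]
  obtain ⟨ψ, hψ, hd⟩ := hs (fun n => Hs (βE n)) (fun n => (L n).comp (Φ n)) (fun w hw => by
    refine tendsto_const_nhds.congr' ?_
    filter_upwards [hΦ w] with n hn
    rw [MonoidHom.comp_apply, hn, (MonoidHom.mem_ker).1 hw, θ_one, map_one, dH_self])
  have hall : ∀ w, Tendsto (fun n => dH (L n (Φ n w)) (ψ n w)) atTop (𝓝 0) := by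
    intro w
    induction w using FreeGroup.induction_on with
    | C1 => simp [dH_self]
    | of s => exact hd s
    | inv_of s ih => simpa only [map_inv, dH_inv] using ih
    | mul x y hx hy =>
      refine squeeze_zero (fun n => dH_nonneg _ _) (fun n => ?_) (by simpa using hx.add hy)
      simp only [map_mul]
      exact dH_mul _ _ _ _
  obtain ⟨wh, hwh⟩ := hπ hh
  obtain ⟨wg, hwg⟩ := hπ gg
  have h1 : Tendsto (fun n => dH (L n (Φ n wg)) (ψ n wg) + 2 * dH (L n (Φ n wh)) (ψ n wh))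
      atTop (𝓝 0) := by simpa using (hall wg).add ((hall wh).const_mul 2)
  have h2 : ∀ᶠ n in atTop,
      1 ≤ dH (L n (Φ n wg)) (ψ n wg) + 2 * dH (L n (Φ n wh)) (ψ n wh) := by
    filter_upwards [hΦ wg, hΦ wh] with n e1 e2
    let ρ : P →* Equiv.Perm (Hs (βE n)) :=
      π.liftOfRightInverse (Function.surjInv hπ) (Function.rightInverse_surjInv hπ) ⟨ψ n, hψ n⟩
    have hρ : ∀ w, ρ (π w) = ψ n w := fun w =>
      π.liftOfRightInverse_comp_apply _ _ ⟨ψ n, hψ n⟩ w
    obtain ⟨u, hu⟩ := fin_rel ρ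
    have e3 : θ n hh = 1 := by ext <;> simp [θ, hh]
    have e4 : dH (L n (θ n gg)) 1 = 1 := by
      unfold dH
      rw [Finset.filter_true_of_mem, Finset.card_univ, div_self]
      · exact_mod_cast Fintype.card_ne_zero
      · intro x _ hx
        have h3 : θ n gg * x = x := hx
        have h4 := congrArg Hs.z (mul_eq_right.1 h3)
        simp [θ, gg] at h4
    rw [e1, e2, hwg, hwh, e3, map_one, ← hρ, ← hρ, hwg, hwh, dH_comm 1]
    have h5 := dH_tri (L n (θ n gg)) (ρ gg) 1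
    have h6 := dH_comm_le (ρ hh) u
    rw [← hu] at h6
    linarith
  have := ge_of_tendsto h1 h2
  norm_num at this

end Pool.Agent.Results.MP_7bd500_al.No
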